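import Mathlib
import Pool.Graph.R_pool_sql_team_668148b0.Results.MP_30d25d_nt.Characterisation
import Pool.Agent.H575.FourCubesCore

set_option autoImplicit false

/-!
# Four cubes: finitely many representations force the elliptic range

For an integer `m` let `S(m)` be the set of integer solutions of `x^3 + y^3 + z^3 + w^3 = m`.
We prove: `S(m)` is finite if and only if `m` is `4` or `5` modulo `9` and every representation
`(x, y, z, w)` of `m` is

* either elliptic: all six pair sums have one sign and `4 |m| < |x + y + z + w|^3 ≤ 16 |m|`,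
* or degenerate: up to order it is `(a, a, b, b)` with `a b < 0`.

The new point (with respect to the earlier characterisation, which is imported) is that a
representation all of whose pair sums have one sign and with `|x + y + z + w|^3 < 4 |m|` makes
`S(m)` infinite.  The slice `x + y + z + w = c` of the threefold is the Markov type surface
`X^2 + Y^2 + Z^2 - X Y Z = k`; the condition says `k > 4`.  A rotation of infinite order in a fibre
`X = const` carries the integral point to a rational point with `|Y| > 2`, whose denominators are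
powers of `c`; there a Pell automorph of the fibre `Y = const`, chosen congruent to the identity
modulo a high power of `c`, moves it far away; the inverse rotation carries it back to an integral
point.
-/

namespace Pool.Agent.Results.MP_30d25d_nt.EllipticRange

/-- All pair sums have one sign and `4 |m| < |x + y + z + w| ^ 3 ≤ 16 |m|`. -/
def Elliptic (m x y z w : ℤ) : Prop :=
  0 < (x + y) * (z + w) ∧ 0 < (x + z) * (y + w) ∧ 0 < (x + w) * (y + z) ∧
    4 * |m| < |x + y + z + w| ^ 3 ∧ |x + y + z + w| ^ 3 ≤ 16 * |m|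

/-- Up to order the quadruple is `(a, a, b, b)` with `a b < 0`. -/
def Degenerate (x y z w : ℤ) : Prop :=
  (x = y ∧ z = w ∧ x * z < 0) ∨ (x = z ∧ y = w ∧ x * y < 0) ∨ (x = w ∧ y = z ∧ x * y < 0)

open Pool.Agent.Results.MP_30d25d_nt.Characterisation in
/-- Permuted form of the core step. -/
lemma of_core {x y z w c m : ℤ} (h : x ^ 3 + y ^ 3 + z ^ 3 + w ^ 3 = m) (hm : m % 9 = 4 ∨ m % 9 = 5)
    (hc : x + y + z + w = c)
    (hA0 : x + y - z - w ≠ 0) (hAc : |x + y - z - w| < |c|)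
    (hK : 1 < (((x + y - z - w : ℤ) : ℚ) / c) ^ 2 + (((x + z - y - w : ℤ) : ℚ) / c) ^ 2
      + (((x + w - y - z : ℤ) : ℚ) / c) ^ 2
      + 2 * (((x + y - z - w : ℤ) : ℚ) / c) * (((x + z - y - w : ℤ) : ℚ) / c)
        * (((x + w - y - z : ℤ) : ℚ) / c)) :
    Set.Infinite {p : ℤ × ℤ × ℤ × ℤ |
      p.1 ^ 3 + p.2.1 ^ 3 + p.2.2.1 ^ 3 + p.2.2.2 ^ 3 = m} := by
  have hres := residues h hm
  obtain ⟨x', y', z', w', h1, h2, h3, h4⟩ := Pool.Agent.H575.FourCubes.core hc (by omega)
    (by omega) (by omega) (by omega) hA0 hAc hK |c|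
  refine (criterion m hm).2 ⟨x', y', z', w', by rw [h1, h], ?_, ?_⟩
  · have h5 : c ^ 2 < (x' + y' - z' - w') ^ 2 := sq_lt_sq.2 h3
    have h6 : 4 * ((x' + y') * (z' + w')) = c ^ 2 - (x' + y' - z' - w') ^ 2 := by
      rw [← h2]; ring
    linarith
  · by_contra hcon
    push Not at hcon
    exact h4 ⟨by linarith [hcon.1, hcon.2], by linarith [hcon.1, hcon.2]⟩

/-- The new criterion: one sign for all pair sums and `|x + y + z + w| ^ 3 < 4 |m|`. -/
theorem infinite_of_lt {x y z w m : ℤ} (h : x ^ 3 + y ^ 3 + z ^ 3 + w ^ 3 = m)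
    (hm : m % 9 = 4 ∨ m % 9 = 5) (h1 : 0 < (x + y) * (z + w)) (h2 : 0 < (x + z) * (y + w))
    (h3 : 0 < (x + w) * (y + z)) (hlt : |x + y + z + w| ^ 3 < 4 * |m|) :
    Set.Infinite {p : ℤ × ℤ × ℤ × ℤ |
      p.1 ^ 3 + p.2.1 ^ 3 + p.2.2.1 ^ 3 + p.2.2.2 ^ 3 = m} := by
  obtain ⟨c, hc⟩ : ∃ c, x + y + z + w = c := ⟨_, rfl⟩
  have hres := Pool.Agent.Results.MP_30d25d_nt.Characterisation.residues h hm
  have hc0 : c ≠ 0 := by
    rintro rfl
    omega
  have hc' : (c : ℚ) ≠ 0 := by exact_mod_cast hc0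
  have hA : |x + y - z - w| < |c| := by
    apply sq_lt_sq.1; rw [← hc]; nlinarith
  have hB : |x + z - y - w| < |c| := by
    apply sq_lt_sq.1; rw [← hc]; nlinarith
  have hD : |x + w - y - z| < |c| := by
    apply sq_lt_sq.1; rw [← hc]; nlinarith
  obtain ⟨a, ha⟩ : ∃ a : ℚ, a = ((x + y - z - w : ℤ) : ℚ) / c := ⟨_, rfl⟩
  obtain ⟨b, hb⟩ : ∃ b : ℚ, b = ((x + z - y - w : ℤ) : ℚ) / c := ⟨_, rfl⟩
  obtain ⟨d, hd⟩ : ∃ d : ℚ, d = ((x + w - y - z : ℤ) : ℚ) / c := ⟨_, rfl⟩
  have hle : ∀ A : ℤ, |A| < |c| → |(A : ℚ) / c| < 1 := by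
    intro A hA
    rw [abs_div, div_lt_one (by positivity)]
    exact_mod_cast hA
  have ha1 := hle _ hA
  rw [← ha] at ha1
  obtain ⟨ρ, hρ⟩ : ∃ ρ : ℚ, ρ = (m : ℚ) / (c : ℚ) ^ 3 := ⟨_, rfl⟩
  have hid : 16 * ρ = 1 + 3 * (a ^ 2 + b ^ 2 + d ^ 2 + 2 * a * b * d) := by
    have e0 : 16 * m = c ^ 3 + 3 * (c * ((x + y - z - w) ^ 2 + (x + z - y - w) ^ 2
        + (x + w - y - z) ^ 2) + 2 * (x + y - z - w) * (x + z - y - w) * (x + w - y - z)) := by
      rw [← h, ← hc]; ring
    have e1 : 16 * (m : ℚ) = (c : ℚ) ^ 3 + 3 * ((c : ℚ) * (((x + y - z - w : ℤ) : ℚ) ^ 2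
        + ((x + z - y - w : ℤ) : ℚ) ^ 2 + ((x + w - y - z : ℤ) : ℚ) ^ 2)
        + 2 * ((x + y - z - w : ℤ) : ℚ) * ((x + z - y - w : ℤ) : ℚ)
        * ((x + w - y - z : ℤ) : ℚ)) := by exact_mod_cast e0
    rw [hρ, ha, hb, hd]
    field_simp
    linear_combination e1
  have hK0 : 0 ≤ a ^ 2 + b ^ 2 + d ^ 2 + 2 * a * b * d := by
    obtain ⟨l1, l2⟩ := abs_lt.1 ha1
    nlinarith [sq_nonneg (b + d), sq_nonneg (b - d), sq_nonneg (b + a * d), sq_nonneg a,
      mul_nonneg (show (0 : ℚ) ≤ 1 - a ^ 2 by nlinarith) (sq_nonneg d)]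
  have hρabs : 1 < 4 * |ρ| := by
    have e2 : ((|x + y + z + w| ^ 3 : ℤ) : ℚ) < ((4 * |m| : ℤ) : ℚ) := by exact_mod_cast hlt
    rw [hc] at e2
    push_cast at e2
    rw [hρ, abs_div, abs_pow]
    have e3 : (0 : ℚ) < |(c : ℚ)| ^ 3 := by positivity
    rw [← mul_div_assoc, lt_div_iff₀ e3]
    linarith
  have hρpos : 0 < ρ := by linarith
  rw [abs_of_pos hρpos] at hρabs
  have hK : 1 < a ^ 2 + b ^ 2 + d ^ 2 + 2 * a * b * d := by linarith
  by_cases hA0 : x + y - z - w = 0
  · by_cases hB0 : x + z - y - w = 0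
    · by_cases hD0 : x + w - y - z = 0
      · exfalso
        rw [ha, hb, hd, hA0, hB0, hD0] at hK
        norm_num at hK
      · -- use the pairing (x, w), (z, y)
        have e4 : ((x + w - z - y : ℤ) : ℚ) / c = d := by rw [hd]; congr 2; ring
        have e5 : ((x + z - w - y : ℤ) : ℚ) / c = b := by rw [hb]; congr 2; ring
        have e6 : ((x + y - w - z : ℤ) : ℚ) / c = a := by rw [ha]; congr 2; ring
        refine of_core (x := x) (y := w) (z := z) (w := y) (c := c) (by linarith) hm (by linarith)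
          (by intro h0; apply hD0; linarith) ?_ ?_
        · have : x + w - z - y = x + w - y - z := by ring
          rw [this]; exact hD
        · rw [e4, e5, e6]; linarith
    · -- use the pairing (x, z), (y, w)
      have e4 : ((x + w - z - y : ℤ) : ℚ) / c = d := by rw [hd]; congr 2; ring
      refine of_core (x := x) (y := z) (z := y) (w := w) (c := c) (by linarith) hm (by linarith)
        hB0 hB ?_
      rw [e4, ← ha, ← hb]; linarith
  · refine of_core h hm hc hA0 hA ?_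
    rw [← ha, ← hb, ← hd]; exact hK

/-- The upper bound `|c| ^ 3 ≤ 16 |m|` when all pair sums have one sign. -/
lemma upper {x y z w m : ℤ} (h : x ^ 3 + y ^ 3 + z ^ 3 + w ^ 3 = m)
    (h1 : 0 < (x + y) * (z + w)) : |x + y + z + w| ^ 3 ≤ 16 * |m| := by
  obtain ⟨c, hc⟩ : ∃ c, x + y + z + w = c := ⟨_, rfl⟩
  obtain ⟨A, hA⟩ : ∃ A, A = x + y - z - w := ⟨_, rfl⟩
  obtain ⟨B, hB⟩ : ∃ B, B = x + z - y - w := ⟨_, rfl⟩
  obtain ⟨D, hD⟩ : ∃ D, D = x + w - y - z := ⟨_, rfl⟩
  have e0 : 16 * m = c ^ 3 + 3 * (c * (A ^ 2 + B ^ 2 + D ^ 2) + 2 * A * B * D) := by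
    rw [← h, ← hc, hA, hB, hD]; ring
  have hAc : A ^ 2 < c ^ 2 := by rw [hA, ← hc]; nlinarith
  have hc0 : c ≠ 0 := by rintro rfl; nlinarith [sq_nonneg A]
  -- `c * (c (A² + B² + D²) + 2ABD) ≥ 0`
  have hpos : 0 ≤ c * (c * (A ^ 2 + B ^ 2 + D ^ 2) + 2 * A * B * D) := by
    nlinarith [sq_nonneg (c * B + A * D), mul_nonneg (show 0 ≤ c ^ 2 - A ^ 2 by linarith) (sq_nonneg D),
      sq_nonneg (c * A)]
  rw [hc]
  have e1 : c * (16 * m) = c ^ 4 + 3 * (c * (c * (A ^ 2 + B ^ 2 + D ^ 2) + 2 * A * B * D)) := by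
    rw [e0]; ring
  have e2 : |c| ^ 4 ≤ |c| * (16 * |m|) := by
    have : |c| ^ 4 = c ^ 4 := by
      rw [show |c| ^ 4 = (|c| ^ 2) ^ 2 by ring, sq_abs]; ring
    rw [this]
    have h5 : c * (16 * m) ≤ |c| * (16 * |m|) := by
      have := le_abs_self (c * (16 * m))
      rwa [abs_mul, abs_mul, abs_of_pos (show (0 : ℤ) < 16 by norm_num)] at this
    linarith
  have e3 : 0 < |c| := abs_pos.2 hc0
  have e4 : |c| * |c| ^ 3 ≤ |c| * (16 * |m|) := by
    have : |c| * |c| ^ 3 = |c| ^ 4 := by ring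
    rw [this]; exact e2
  exact le_of_mul_le_mul_left e4 e3

/-- `4 |m| = |c| ^ 3` is impossible in the classes `4, 5` modulo `9`. -/
lemma ne_boundary {c m : ℤ} (hm : m % 9 = 4 ∨ m % 9 = 5) : 4 * |m| ≠ |c| ^ 3 := by
  intro h
  have h2 : (2 : ℤ) ∣ |c| := by
    have : (2 : ℤ) ∣ |c| ^ 3 := ⟨2 * |m|, by rw [← h]; ring⟩
    exact Int.prime_two.dvd_of_dvd_pow this
  obtain ⟨e, he⟩ := h2
  rw [he] at h
  have h3 : |m| = 2 * e ^ 3 := by nlinarith
  have h9 := Pool.Agent.Results.MP_30d25d_nt.Characterisation.cube9 e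
  rcases abs_cases m with ⟨h5, -⟩ | ⟨h5, -⟩ <;> omega

/-- **Theorem.** `x^3 + y^3 + z^3 + w^3 = m` has only finitely many integer solutions if and only if
`m` is `4` or `5` modulo `9` and each solution is elliptic or degenerate. -/
theorem result (m : ℤ) :
    Set.Finite {p : ℤ × ℤ × ℤ × ℤ |
      p.1 ^ 3 + p.2.1 ^ 3 + p.2.2.1 ^ 3 + p.2.2.2 ^ 3 = m} ↔
    (m % 9 = 4 ∨ m % 9 = 5) ∧
      ∀ x y z w : ℤ, x ^ 3 + y ^ 3 + z ^ 3 + w ^ 3 = m →
        Elliptic m x y z w ∨ Degenerate x y z w := by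
  constructor
  · intro hfin
    have hm : m % 9 = 4 ∨ m % 9 = 5 := by
      by_contra hcon
      have := Pool.Agent.Results.MP_30d25d_nt.Characterisation.main_res m (by omega) (by omega)
      exact this hfin
    refine ⟨hm, ?_⟩
    have hcr := (Pool.Agent.Results.MP_30d25d_nt.Characterisation.criterion m hm)
    have hno : ∀ x y z w : ℤ, x ^ 3 + y ^ 3 + z ^ 3 + w ^ 3 = m → (x + y) * (z + w) < 0 →
        x = y ∧ z = w := by
      intro x y z w h hneg
      by_contra hcon
      exact (hcr.2 ⟨x, y, z, w, h, hneg, not_and_or.1 hcon⟩) hfin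
    have hz : ∀ x y z w : ℤ, x ^ 3 + y ^ 3 + z ^ 3 + w ^ 3 = m → (x + y) * (z + w) ≠ 0 := by
      intro x y z w h h0
      have hres := Pool.Agent.Results.MP_30d25d_nt.Characterisation.residues h hm
      rcases mul_eq_zero.1 h0 with h1 | h1 <;> omega
    intro x y z w h
    rcases lt_trichotomy ((x + y) * (z + w)) 0 with h1 | h1 | h1
    · right; left
      obtain ⟨e1, e2⟩ := hno x y z w h h1
      refine ⟨e1, e2, ?_⟩
      subst e1; subst e2
      nlinarith
    · exact absurd h1 (hz x y z w h)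
    · rcases lt_trichotomy ((x + z) * (y + w)) 0 with h2 | h2 | h2
      · right; right; left
        obtain ⟨e1, e2⟩ := hno x z y w (by linarith) h2
        refine ⟨e1, e2, ?_⟩
        subst e1; subst e2
        nlinarith
      · exact absurd h2 (hz x z y w (by linarith))
      · rcases lt_trichotomy ((x + w) * (y + z)) 0 with h3 | h3 | h3
        · right; right; right
          obtain ⟨e1, e2⟩ := hno x w y z (by linarith) h3
          refine ⟨e1, e2, ?_⟩
          subst e1; subst e2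
          nlinarith
        · exact absurd h3 (hz x w y z (by linarith))
        · left
          refine ⟨h1, h2, h3, ?_, upper h h1⟩
          by_contra hcon
          push Not at hcon
          rcases lt_or_eq_of_le hcon with h4 | h4
          · exact infinite_of_lt h hm h1 h2 h3 h4 hfin
          · exact ne_boundary hm h4.symm
  · rintro ⟨hm, hall⟩
    by_contra hinf
    obtain ⟨x, y, z, w, h, hneg, hne⟩ :=
      (Pool.Agent.Results.MP_30d25d_nt.Characterisation.criterion m hm).1 hinf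
    rcases hall x y z w h with hE | hD
    · exact absurd hE.1 (not_lt.2 hneg.le)
    · rcases hD with ⟨e1, e2, -⟩ | ⟨e1, e2, -⟩ | ⟨e1, e2, -⟩
      · rcases hne with h5 | h5
        · exact h5 e1
        · exact h5 e2
      · subst e1; subst e2; nlinarith [sq_nonneg (x + y)]
      · subst e1; subst e2; nlinarith [sq_nonneg (x + y)]

end Pool.Agent.Results.MP_30d25d_nt.EllipticRange
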